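import Pool.Agent.Lib.MP_22c5db_an.Final

namespace Pool.Agent.Retired.MP_22c5db_an.Inner

theorem result {H : Type*} [NormedAddCommGroup H] [InnerProductSpace ℂ H] [CompleteSpace H]
    (R : VonNeumannAlgebra H) (δ : R.toStarSubalgebra →ₗ[ℂ] (H →L[ℂ] H))
    (hδ : ∀ a b : R.toStarSubalgebra,
      δ (a * b) = (a : H →L[ℂ] H) * δ b + δ a * (b : H →L[ℂ] H)) :
    ∃ T : H →L[ℂ] H, ∀ a : R.toStarSubalgebra,
      δ a = T * (a : H →L[ℂ] H) - (a : H →L[ℂ] H) * T := by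
  obtain ⟨g, hg⟩ := LinearMap.exists_extend (p := R.toStarSubalgebra.toSubalgebra.toSubmodule) δ
  have h : ∀ a : R.toStarSubalgebra, g a = δ a := fun a => LinearMap.congr_fun hg a
  obtain ⟨T, hT⟩ := Pool.Agent.Kad.inner_of_der (R := R) (δ := g) fun a ha b hb =>
    (h (⟨a, ha⟩ * ⟨b, hb⟩)).trans (by rw [hδ, ← h, ← h])
  exact ⟨T, fun a => (h a).symm.trans (hT a a.2)⟩

end Pool.Agent.Retired.MP_22c5db_an.Inner
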